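import Mathlib
import Pool.Agent.J6H51.Box.Power

/-!
# MP_c59173_co: the box statement for product sets holds in all groups exactly for `n ≤ 3`

The starting file `NoBox` has one group and four sets for which no numbers `lam i` exist. Here the
question is decided for every number `n` of sets:

* for `n ≤ 3` the numbers exist in every group (for `n = 3` this rests on Ruzsa's inequality
  `|ABC|² ≤ |AB| |BC| max_b |AbC|`, proved in `Pool/Agent/J6H51/Box/Three.lean`);
* for every `n ≥ 4` they do not, and the statement is not even true up to a constant factor: in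
  suitable groups of order `64 ^ k`, whatever the positive numbers `lam i` with product `|S|` are,
  some product `∏_{i ∈ A} lam i` is at least `(10/9) ^ (k/2)` times `N_A`.

`prodSet S` (the product set `S₁ ⋆ ... ⋆ Sₙ`) and `maxCard S A` (the number `N_A`) are those of
the starting file.
-/

set_option autoImplicit false

open scoped Pointwise

namespace Pool.Agent.Results.MP_c59173_co.ExactlyUpToThree

open Pool.Agent.Results.MP_c59173_co.NoBox Pool.Agent.J6H51.Box

/-- There are positive reals `lam i` with `∏ i, lam i = |S|` and `∏_{i ∈ A} lam i ≤ N_A` for every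
`A`. -/
def HasBox {G : Type*} [Group G] [DecidableEq G] {n : ℕ} (S : Fin n → Finset G) : Prop :=
  ∃ lam : Fin n → ℝ, (∀ i, 0 < lam i) ∧ ∏ i, lam i = ((prodSet S).card : ℝ) ∧
    ∀ A : Finset (Fin n), ∏ i ∈ A, lam i ≤ (maxCard S A : ℝ)

universe u

/-- (1) For `n ≤ 3` nonempty finite subsets of any group the numbers exist. (2) For every `n ≥ 4`
and every `k` there are a group of order `64 ^ k` and `n` nonempty subsets with `|S| = 40 ^ k` such
that for all positive `lam i` with product `|S|` some `A` satisfies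
`∏_{i ∈ A} lam i ≥ (10/9) ^ (k/2) N_A`. (3) So the statement holds for all groups exactly when
`n ≤ 3`. -/
theorem result :
    (∀ (G : Type u) (_ : Group G) (_ : DecidableEq G) (n : ℕ) (S : Fin n → Finset G),
      n ≤ 3 → (∀ i, (S i).Nonempty) → HasBox S) ∧
    (∀ n k : ℕ, 4 ≤ n → ∃ (G : Type) (_ : Group G) (_ : DecidableEq G) (_ : Fintype G)
      (S : Fin n → Finset G), Fintype.card G = 64 ^ k ∧ (∀ i, (S i).Nonempty) ∧
        (prodSet S).card = 40 ^ k ∧
        ∀ lam : Fin n → ℝ, (∀ i, 0 < lam i) → ∏ i, lam i = ((prodSet S).card : ℝ) →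
          ∃ A : Finset (Fin n),
            (10 / 9 : ℝ) ^ k * (maxCard S A : ℝ) ^ 2 ≤ (∏ i ∈ A, lam i) ^ 2) ∧
    (∀ n : ℕ, (∀ (G : Type) (_ : Group G) (_ : DecidableEq G) (S : Fin n → Finset G),
      (∀ i, (S i).Nonempty) → HasBox S) ↔ n ≤ 3) := by
  have h1 : ∀ (G : Type u) (_ : Group G) (_ : DecidableEq G) (n : ℕ) (S : Fin n → Finset G),
      n ≤ 3 → (∀ i, (S i).Nonempty) → HasBox S := by
    intro G _ _ n S hn hS
    exact box_le_three hn S hS
  have h1' : ∀ (G : Type) (_ : Group G) (_ : DecidableEq G) (n : ℕ) (S : Fin n → Finset G),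
      n ≤ 3 → (∀ i, (S i).Nonempty) → HasBox S := by
    intro G _ _ n S hn hS
    exact box_le_three hn S hS
  have h2 : ∀ n k : ℕ, 4 ≤ n → ∃ (G : Type) (_ : Group G) (_ : DecidableEq G) (_ : Fintype G)
      (S : Fin n → Finset G), Fintype.card G = 64 ^ k ∧ (∀ i, (S i).Nonempty) ∧
        (prodSet S).card = 40 ^ k ∧
        ∀ lam : Fin n → ℝ, (∀ i, 0 < lam i) → ∏ i, lam i = ((prodSet S).card : ℝ) →
          ∃ A : Finset (Fin n),
            (10 / 9 : ℝ) ^ k * (maxCard S A : ℝ) ^ 2 ≤ (∏ i ∈ A, lam i) ^ 2 := by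
    intro n k hn
    obtain ⟨m, rfl⟩ := Nat.exists_eq_add_of_le hn
    obtain ⟨S, A, hne, hcard, hA, hAc⟩ := fam m k
    refine ⟨Fin k → GG, inferInstance, inferInstance, inferInstance, S, ?_, hne, hcard, ?_⟩
    · rw [Fintype.card_fun, Fintype.card_prod, Fintype.card_fin]
      have : Fintype.card (DihedralGroup 4) = 8 := by
        rw [← Nat.card_eq_fintype_card, DihedralGroup.nat_card]
      rw [this]
    · intro lam hpos hprod
      have hsplit : (∏ i ∈ A, lam i) * ∏ i ∈ Aᶜ, lam i = 40 ^ k := by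
        rw [Finset.prod_mul_prod_compl, hprod, hcard]
        push_cast
        rfl
      have ha : 0 < ∏ i ∈ A, lam i := Finset.prod_pos fun i _ => hpos i
      have hac : 0 < ∏ i ∈ Aᶜ, lam i := Finset.prod_pos fun i _ => hpos i
      set a := ∏ i ∈ A, lam i with hadef
      set b := ∏ i ∈ Aᶜ, lam i with hbdef
      have hbase : (10 / 9 : ℝ) ^ k * (6 ^ k) ^ 2 = 40 ^ k := by
        rw [← pow_mul, mul_comm k 2, pow_mul, ← mul_pow]
        norm_num
      have hbound : ∀ B : Finset (Fin (4 + m)), maxCard S B ≤ 6 ^ k →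
          (10 / 9 : ℝ) ^ k * (maxCard S B : ℝ) ^ 2 ≤ 40 ^ k := by
        intro B hB
        rw [← hbase]
        refine mul_le_mul_of_nonneg_left ?_ (by positivity)
        refine pow_le_pow_left₀ (Nat.cast_nonneg _) ?_ 2
        exact_mod_cast hB
      rcases le_total a b with hab | hab
      · refine ⟨Aᶜ, (hbound _ hAc).trans ?_⟩
        rw [← hsplit, pow_two]
        exact mul_le_mul_of_nonneg_right hab hac.le
      · refine ⟨A, (hbound _ hA).trans ?_⟩
        rw [← hsplit, pow_two]
        exact mul_le_mul_of_nonneg_left hab ha.le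
  refine ⟨h1, h2, fun n => ⟨fun h => ?_, fun hn G _ _ S hS => h1' G _ _ n S hn hS⟩⟩
  by_contra hn
  push Not at hn
  obtain ⟨G, iG, iD, iF, S, _, hne, hcard, hlam⟩ := h2 n 1 hn
  obtain ⟨lam, hpos, hprod, hA⟩ := h G iG iD S hne
  obtain ⟨A, hA'⟩ := hlam lam hpos hprod
  have hle := hA A
  have hp : 0 < ∏ i ∈ A, lam i := Finset.prod_pos fun i _ => hpos i
  have h3 : (∏ i ∈ A, lam i) ^ 2 ≤ (maxCard S A : ℝ) ^ 2 :=
    pow_le_pow_left₀ hp.le hle 2
  have h4 : 0 < (maxCard S A : ℝ) ^ 2 := lt_of_lt_of_le (by positivity) h3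
  have h5 : (10 / 9 : ℝ) ^ 1 * (maxCard S A : ℝ) ^ 2 ≤ (maxCard S A : ℝ) ^ 2 := hA'.trans h3
  nlinarith

end Pool.Agent.Results.MP_c59173_co.ExactlyUpToThree
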